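import Mathlib
import Pool.Agent.W_MP_721462_co.Pattern

set_option autoImplicit false

namespace Pool.Agent.Results.MP_721462_co.FullPairs

open Finset Pool.Agent.W_MP_721462_co

/-! ## Definitions used in the statement -/

/-- An orientation of the hypergraph with edge set `H` (all edges having `r` elements):
for every edge a bijection from its elements onto the positions `Fin r`. -/
abbrev Orientation {V : Type} (r : ℕ) (H : Finset (Finset V)) : Type :=
  ∀ E : {E : Finset V // E ∈ H}, {v : V // v ∈ E.1} ≃ Fin r

/-- The set of positions occupied in the edge `E` by the elements of `A`. -/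
def positions {V : Type} [DecidableEq V] {r : ℕ} {H : Finset (Finset V)}
    (D : Orientation r H) (E : {E : Finset V // E ∈ H}) (A : Finset V) : Finset (Fin r) :=
  univ.filter fun i => ((D E).symm i).1 ∈ A

/-- The degree `d_P(A)`: the number of edges `E ⊇ A` in which the positions occupied by the
elements of `A` are exactly `P`. -/
def degree {V : Type} [DecidableEq V] {r : ℕ} {H : Finset (Finset V)}
    (D : Orientation r H) (P : Finset (Fin r)) (A : Finset V) : ℕ :=
  (univ.filter fun E : {E : Finset V // E ∈ H} => A ⊆ E.1 ∧ positions D E A = P).card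

/-- `f(D,p,k)`: the number of `p`-sets `A` with `d_P(A) ≥ k` for all `p`-subsets `P` of the
positions. -/
def fullCountOf {V : Type} [Fintype V] [DecidableEq V] {r : ℕ} {H : Finset (Finset V)}
    (D : Orientation r H) (p k : ℕ) : ℕ :=
  (((univ : Finset V).powersetCard p).filter fun A =>
    ∀ P ∈ (univ : Finset (Fin r)).powersetCard p, k ≤ degree D P A).card

/-- `f(H,p,k)`: the minimum of `f(D,p,k)` over all orientations `D` of `H`. -/
noncomputable def fullCount {V : Type} [Fintype V] [DecidableEq V] (r : ℕ)
    (H : Finset (Finset V)) (p k : ℕ) : ℕ :=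
  sInf (Set.range fun D : Orientation r H => fullCountOf D p k)

/-- The family `B` of `p`-sets can be coloured with at most `r.choose p` colours so that no edge
all of whose `p`-subsets lie in `B` is `p`-monochromatic. -/
def Colourable {V : Type} (r p : ℕ) (H : Finset (Finset V)) (B : Finset (Finset V)) : Prop :=
  ∃ c : Finset V → Fin (r.choose p), ∀ E ∈ H, E.powersetCard p ⊆ B →
    ¬ ∃ i, ∀ A ∈ E.powersetCard p, c A = i

/-- `b(H,p)`: the largest size of a family of `p`-sets that is colourable in the above sense. -/
noncomputable def maxColourable {V : Type} [Fintype V] (r : ℕ) (H : Finset (Finset V)) (p : ℕ) : ℕ :=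
  sSup {m : ℕ | ∃ B ⊆ (univ : Finset V).powersetCard p, Colourable r p H B ∧ B.card = m}

/-! ## From orientations to colourings -/

lemma exists_card_eq_two {P : Finset (Fin 4)} (hP : P.card = 2) : Pᶜ.card = 2 := by
  rw [Finset.card_compl, hP]; rfl

/-- The set of vertices of the edge `E` occupying the positions in `P`. -/
def atPositions {V : Type} [DecidableEq V] {r : ℕ} {H : Finset (Finset V)}
    (D : Orientation r H) (E : {E : Finset V // E ∈ H}) (P : Finset (Fin r)) : Finset V :=
  P.image fun i => ((D E).symm i).1

lemma atPositions_subset {V : Type} [DecidableEq V] {r : ℕ} {H : Finset (Finset V)}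
    (D : Orientation r H) (E : {E : Finset V // E ∈ H}) (P : Finset (Fin r)) :
    atPositions D E P ⊆ E.1 := by
  intro v hv
  obtain ⟨i, -, rfl⟩ := Finset.mem_image.1 hv
  exact ((D E).symm i).2

lemma atPositions_card {V : Type} [DecidableEq V] {r : ℕ} {H : Finset (Finset V)}
    (D : Orientation r H) (E : {E : Finset V // E ∈ H}) (P : Finset (Fin r)) :
    (atPositions D E P).card = P.card := by
  refine Finset.card_image_of_injective _ ?_
  intro i j hij
  exact (D E).symm.injective (Subtype.ext hij)

lemma positions_atPositions {V : Type} [DecidableEq V] {r : ℕ} {H : Finset (Finset V)}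
    (D : Orientation r H) (E : {E : Finset V // E ∈ H}) (P : Finset (Fin r)) :
    positions D E (atPositions D E P) = P := by
  ext i
  simp only [positions, atPositions, Finset.mem_filter, Finset.mem_univ, true_and,
    Finset.mem_image]
  constructor
  · rintro ⟨j, hj, hij⟩
    have := (D E).symm.injective (Subtype.ext hij)
    rwa [← this]
  · intro hi
    exact ⟨i, hi, rfl⟩

lemma one_le_degree {V : Type} [DecidableEq V] {r : ℕ} {H : Finset (Finset V)}
    (D : Orientation r H) (E : {E : Finset V // E ∈ H}) (P : Finset (Fin r)) :
    1 ≤ degree D P (atPositions D E P) := by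
  unfold degree
  rw [Nat.succ_le_iff, Finset.card_pos]
  exact ⟨E, Finset.mem_filter.2 ⟨Finset.mem_univ _, atPositions_subset D E P,
    positions_atPositions D E P⟩⟩

/-- In every orientation of the special hypergraph some pair is full. -/
lemma exists_full {V : Type} [Fintype V] [DecidableEq V] (H : Finset (Finset V))
    (hforce : ∀ κ : V → V → Fin 6, Good κ H → ∀ c c' : Fin 6, c ≠ c' →
      ∃ z : Fin 4 → V, Function.Injective z ∧ (univ : Finset (Fin 4)).image z ∈ H ∧
        ∀ a b, a ≠ b → κ (z a) (z b) = if a.val + b.val = 3 then c' else c)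
    (D : Orientation 4 H) : 1 ≤ fullCountOf D 2 1 := by
  by_contra hcon
  have h0 : fullCountOf D 2 1 = 0 := by omega
  unfold fullCountOf at h0
  rw [Finset.card_eq_zero, Finset.filter_eq_empty_iff] at h0
  -- for every pair a missing position
  have hmiss : ∀ A : Finset V, ∃ P : {P : Finset (Fin 4) // P.card = 2},
      A.card = 2 → degree D P.1 A = 0 := by
    intro A
    by_cases hA : A.card = 2
    · have h1 := h0 (x := A) (Finset.mem_powersetCard.2 ⟨Finset.subset_univ _, hA⟩)
      push Not at h1
      obtain ⟨P, hP, hP'⟩ := h1
      exact ⟨⟨P, (Finset.mem_powersetCard.1 hP).2⟩, fun _ => by simp only; omega⟩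
    · exact ⟨⟨{0, 1}, by decide⟩, fun h => absurd h hA⟩
  choose c hc using hmiss
  obtain ⟨σ⟩ : Nonempty ({P : Finset (Fin 4) // P.card = 2} ≃ Fin 6) :=
    ⟨Fintype.equivFinOfCardEq (by decide)⟩
  let κ : V → V → Fin 6 := fun u v => σ (c {u, v})
  have hgood : Good κ H := by
    refine ⟨fun u v => by simp only [κ, Finset.pair_comm], ?_⟩
    intro E hE ⟨k, hk⟩
    have hcard := atPositions_card D ⟨E, hE⟩ (σ.symm k).1
    rw [(σ.symm k).2] at hcard
    obtain ⟨u, v, huv, huv'⟩ := Finset.card_eq_two.1 hcard
    have hsub := atPositions_subset D ⟨E, hE⟩ (σ.symm k).1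
    rw [huv'] at hsub
    have hk' := hk u (hsub (by simp)) v (hsub (by simp)) huv
    have hcc : c {u, v} = σ.symm k := by
      rw [← hk']; simp [κ]
    have h1 := one_le_degree D ⟨E, hE⟩ (σ.symm k).1
    rw [huv'] at h1
    have h2 := hc {u, v} (Finset.card_pair huv)
    rw [hcc] at h2
    omega
  -- two complementary pairs of positions
  let P : {P : Finset (Fin 4) // P.card = 2} := ⟨{0, 1}, by decide⟩
  let P' : {P : Finset (Fin 4) // P.card = 2} := ⟨{2, 3}, by decide⟩
  have hPP' : σ P ≠ σ P' := by
    intro h
    have := congrArg Subtype.val (σ.injective h)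
    exact absurd this (by decide)
  obtain ⟨z, hz, hzH, hzc⟩ := hforce κ hgood (σ P) (σ P') hPP'
  have hcol : ∀ a b, a ≠ b → c {z a, z b} = if a.val + b.val = 3 then P' else P := by
    intro a b hab
    have := hzc a b hab
    apply σ.injective
    rw [apply_ite σ]
    exact this
  -- the vertices at the positions `P`, `P'`
  let E : {E : Finset V // E ∈ H} := ⟨(univ : Finset (Fin 4)).image z, hzH⟩
  have hpos : ∀ i : Fin 4, ∃ a : Fin 4, ((D E).symm i).1 = z a := by
    intro i
    obtain ⟨a, -, ha⟩ := Finset.mem_image.1 ((D E).symm i).2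
    exact ⟨a, ha.symm⟩
  choose w hw using hpos
  have hwinj : Function.Injective w := by
    intro i j hij
    have : ((D E).symm i).1 = ((D E).symm j).1 := by rw [hw, hw, hij]
    exact (D E).symm.injective (Subtype.ext this)
  have hne : ∀ i j, i ≠ j → w i ≠ w j := fun i j hij h => hij (hwinj h)
  have hatP : atPositions D E P.1 = {z (w 0), z (w 1)} := by
    ext v
    simp [atPositions, P, hw]
  have hatP' : atPositions D E P'.1 = {z (w 2), z (w 3)} := by
    ext v
    simp [atPositions, P', hw]
  have hd1 := one_le_degree D E P.1
  have hd2 := one_le_degree D E P'.1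
  rw [hatP] at hd1
  rw [hatP'] at hd2
  have he1 := hc {z (w 0), z (w 1)} (Finset.card_pair (fun h => hne 0 1 (by decide) (hz h)))
  have he2 := hc {z (w 2), z (w 3)} (Finset.card_pair (fun h => hne 2 3 (by decide) (hz h)))
  rw [hcol _ _ (hne 0 1 (by decide))] at he1
  rw [hcol _ _ (hne 2 3 (by decide))] at he2
  -- the sum of the four labels is 6
  have hsum : (w 0).val + (w 1).val + (w 2).val + (w 3).val = 6 := by
    have hbij : Function.Bijective w := Finite.injective_iff_bijective.1 hwinj
    have h1 := (Equiv.ofBijective w hbij).sum_comp (fun i : Fin 4 => i.val)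
    simp [Fin.sum_univ_four] at h1
    omega
  by_cases h3 : (w 0).val + (w 1).val = 3
  · have h4 : (w 2).val + (w 3).val = 3 := by omega
    rw [if_pos h4] at he2
    omega
  · rw [if_neg h3] at he1
    omega

/-- There is a `4`-uniform hypergraph `H` on `n` vertices with
`f(H,2,1) > (n choose 2) - b(H,2)`. -/
theorem result : ∃ (V : Type) (_ : Fintype V) (_ : DecidableEq V) (H : Finset (Finset V)),
    (∀ E ∈ H, E.card = 4) ∧
    ((Fintype.card V).choose 2 : ℤ) - (maxColourable 4 H 2 : ℤ) < (fullCount 4 H 2 1 : ℤ) := by
  obtain ⟨V, iF, iD, H, hH4, ⟨κ, hκ⟩, hforce⟩ := pattern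
  refine ⟨V, iF, iD, H, hH4, ?_⟩
  -- all pairs are colourable
  have hb : maxColourable 4 H 2 = (Fintype.card V).choose 2 := by
    unfold maxColourable
    apply IsGreatest.csSup_eq
    constructor
    · refine ⟨(univ : Finset V).powersetCard 2, Finset.Subset.refl _, ?_, ?_⟩
      · -- the colouring
        have hex : ∀ A : Finset V, ∃ k : Fin (Nat.choose 4 2),
            ∀ u v, u ≠ v → A = {u, v} → k = κ u v := by
          intro A
          by_cases hA : ∃ u v, u ≠ v ∧ A = {u, v}
          · obtain ⟨u, v, huv, rfl⟩ := hA
            refine ⟨κ u v, ?_⟩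
            intro u' v' huv' h
            have hu : u' = u ∨ u' = v := by
              have : u' ∈ ({u, v} : Finset V) := by rw [h]; simp
              simpa using this
            have hv : v' = u ∨ v' = v := by
              have : v' ∈ ({u, v} : Finset V) := by rw [h]; simp
              simpa using this
            rcases hu with rfl | rfl <;> rcases hv with rfl | rfl
            · exact absurd rfl huv'
            · rfl
            · exact hκ.1 _ _
            · exact absurd rfl huv'
          · exact ⟨(0 : Fin 6), fun u v huv h => absurd ⟨u, v, huv, h⟩ hA⟩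
        choose c hc using hex
        refine ⟨c, ?_⟩
        intro E hE _ ⟨k, hk⟩
        refine hκ.2 E hE ⟨k, ?_⟩
        intro u hu v hv huv
        rw [← hc {u, v} u v huv rfl]
        apply hk
        rw [Finset.mem_powersetCard]
        refine ⟨?_, Finset.card_pair huv⟩
        intro x hx
        rcases Finset.mem_insert.1 hx with rfl | hx
        · exact hu
        · rw [Finset.mem_singleton.1 hx]; exact hv
      · rw [Finset.card_powersetCard, Finset.card_univ]
    · rintro m ⟨B, hB, -, rfl⟩
      have := Finset.card_le_card hB
      rwa [Finset.card_powersetCard, Finset.card_univ] at this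
  -- orientations exist
  have hne : (Set.range fun D : Orientation 4 H => fullCountOf D 2 1).Nonempty := by
    have : Nonempty (Orientation 4 H) := by
      refine ⟨fun E => Fintype.equivFinOfCardEq ?_⟩
      simpa using hH4 E.1 E.2
    exact Set.range_nonempty _
  have hf : 1 ≤ fullCount 4 H 2 1 := by
    unfold fullCount
    obtain ⟨D, hD⟩ := Nat.sInf_mem hne
    rw [← hD]
    exact exists_full H hforce D
  rw [hb]
  omega

end Pool.Agent.Results.MP_721462_co.FullPairs
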